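import Pool.Agent.R944.Tysz.Sys

/-!
# Numerators and denominators of unique solutions of additive equation systems

Let `S` be a system of equations `x_i = 1` and `x_i + x_j = x_k` in `n` unknowns which has exactly
one complex solution. Then every coordinate of this solution is a rational number whose numerator
and denominator, in lowest terms, are at most `2^(n-1)` in absolute value.

Proof. By Cramer's rule `D x_k = p_k` for integers `D ≠ 0` and `p_k` which are minors of a matrix
whose rows have positive entries of sum at most `2` and negative entries of sum at least `-1`, one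
of the rows with `1` and `1` in place of `2` and `1`. The inequality of Johnson and Newman
`|det M| ≤ ∏ M_i` (`M_i` bounds the sum of the positive entries of row `i` and the sum of the
absolute values of its negative entries) bounds `D` and the `p_k` by `2^(n-1)`, and the numerator
and the denominator of `x_k` divide `p_k` and `D`.
-/

set_option autoImplicit false

open Pool.Agent.R944.Tysz

namespace Pool.Agent.Results.MP_555c3f_al.UniqueSolutionSize

/-- The equations of `W_n`: `Sum.inl i` is `x_i = 1`, and `Sum.inr (i, j, k)` with `i ≤ j` is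
`x_i + x_j = x_k`. -/
abbrev Eqn (n : ℕ) : Type := Fin n ⊕ {t : Fin n × Fin n × Fin n // t.1 ≤ t.2.1}

/-- The tuple `x` satisfies the equation. -/
def Sat {n : ℕ} (x : Fin n → ℂ) : Eqn n → Prop
  | .inl i => x i = 1
  | .inr t => x t.1.1 + x t.1.2.1 = x t.1.2.2

/-- **Q1, affirmative.** For every `n ≥ 1` and every system `S ⊆ W_n` which has exactly one
solution `x` in `ℂ^n`, every coordinate of `x` is a rational number `r`, and the numerator and the
denominator of `r` in lowest terms are at most `2^(n-1)` in absolute value. -/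
theorem result (n : ℕ) (_hn : 1 ≤ n) (S : Set (Eqn n)) (x : Fin n → ℂ)
    (hx : ∀ e ∈ S, Sat x e) (huniq : ∀ y : Fin n → ℂ, (∀ e ∈ S, Sat y e) → y = x) (i : Fin n) :
    ∃ r : ℚ, x i = (r : ℂ) ∧ |r.num| ≤ 2 ^ (n - 1) ∧ r.den ≤ 2 ^ (n - 1) := by
  classical
  let a : S → Fin n → ℤ := fun e =>
    match e.1 with
    | .inl i => rowU i
    | .inr t => rowA t.1.1 t.1.2.1 t.1.2.2
  let b : S → ℤ := fun e =>
    match e.1 with
    | .inl _ => 1
    | .inr _ => 0
  have hS : ∀ y : Fin n → ℂ, (∀ e : S, ∑ k, (a e k : ℂ) * y k = b e) ↔ ∀ e ∈ S, Sat y e := by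
    intro y
    constructor
    · intro h e he
      have h1 := h ⟨e, he⟩
      rcases e with j | t
      · have h2 : ∑ k, ((rowU j k : ℤ) : ℂ) * y k = ((1 : ℤ) : ℂ) := h1
        rw [eval_rowU] at h2
        simpa [Sat] using h2
      · have h2 : ∑ k, ((rowA t.1.1 t.1.2.1 t.1.2.2 k : ℤ) : ℂ) * y k = ((0 : ℤ) : ℂ) := h1
        rw [eval_rowA] at h2
        have h3 : y t.1.1 + y t.1.2.1 - y t.1.2.2 = 0 := by simpa using h2
        exact sub_eq_zero.1 h3
    · rintro h ⟨e, he⟩
      have h1 := h e he
      rcases e with j | t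
      · show ∑ k, ((rowU j k : ℤ) : ℂ) * y k = ((1 : ℤ) : ℂ)
        rw [eval_rowU]
        simpa [Sat] using h1
      · show ∑ k, ((rowA t.1.1 t.1.2.1 t.1.2.2 k : ℤ) : ℂ) * y k = ((0 : ℤ) : ℂ)
        rw [eval_rowA]
        have h3 : y t.1.1 + y t.1.2.1 = y t.1.2.2 := h1
        rw [h3]
        simp
  have hgood : ∀ e : S, Good (a e) (b e) := by
    rintro ⟨e, he⟩
    rcases e with j | t
    · exact good_rowU j
    · exact good_rowA _ _ _
  obtain ⟨D, p, hD0, hD, hp, hsol⟩ := rational_main a b x ((hS x).2 hx) hgood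
  have hDC : (D : ℂ) ≠ 0 := by exact_mod_cast hD0
  have hy : (fun k => (p k : ℂ) / (D : ℂ)) = x := by
    apply huniq
    rw [← hS]
    intro e
    have h1 : ∑ k, (a e k : ℂ) * (p k : ℂ) = (D : ℂ) * b e := by exact_mod_cast hsol e
    have h2 : ∑ k, (a e k : ℂ) * ((p k : ℂ) / (D : ℂ)) = (∑ k, (a e k : ℂ) * (p k : ℂ)) / D := by
      rw [Finset.sum_div]
      exact Finset.sum_congr rfl fun k _ => by ring
    rw [h2, h1]
    field_simp
  refine ⟨(p i : ℚ) / (D : ℚ), ?_, ?_, ?_⟩
  · rw [← hy]
    push_cast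
    rfl
  · rcases eq_or_ne (p i) 0 with h0 | h0
    · simp [h0]
    · have h1 : ((p i : ℚ) / (D : ℚ)).num ∣ p i := by
        rw [← Rat.divInt_eq_div]
        exact Rat.num_dvd _ hD0
      exact (Int.le_of_dvd (abs_pos.2 h0) ((abs_dvd_abs _ _).2 h1)).trans (hp i)
  · have h1 : (((p i : ℚ) / (D : ℚ)).den : ℤ) ∣ D := by
      rw [← Rat.divInt_eq_div]
      exact Rat.den_dvd _ _
    have h2 : (((p i : ℚ) / (D : ℚ)).den : ℤ) ≤ |D| :=
      Int.le_of_dvd (abs_pos.2 hD0) ((dvd_abs _ _).2 h1)
    have h3 := h2.trans hD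
    exact_mod_cast h3

end Pool.Agent.Results.MP_555c3f_al.UniqueSolutionSize
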